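import Mathlib

/-!
# REC: finitely many classes from a colouring
-/

set_option autoImplicit false

open scoped Classical

namespace REC

/-- representatives for a colouring by a finite type -/
theorem rep_col {X : Type} {κ : Type} [Finite κ] (𝒯 : Set X) (f : X → κ) (R : X → X → Prop)
    (h : ∀ x ∈ 𝒯, ∀ y ∈ 𝒯, f x = f y → R x y) :
    ∃ T : Finset X, (T : Set X) ⊆ 𝒯 ∧ T.card ≤ Nat.card κ ∧ ∀ x ∈ 𝒯, ∃ y ∈ T, R x y := by
  have := Fintype.ofFinite κ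
  let rep : κ → Finset X := fun k => if hk : ∃ x, x ∈ 𝒯 ∧ f x = k then {hk.choose} else ∅
  have hrep : ∀ k, ∀ x ∈ rep k, x ∈ 𝒯 ∧ f x = k := by
    intro k x hx
    by_cases hk : ∃ x, x ∈ 𝒯 ∧ f x = k
    · have h1 : rep k = {hk.choose} := dif_pos hk
      rw [h1, Finset.mem_singleton] at hx
      rw [hx]
      exact hk.choose_spec
    · have h1 : rep k = ∅ := dif_neg hk
      rw [h1] at hx
      exact absurd hx (Finset.notMem_empty x)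
  have hcard : ∀ k, (rep k).card ≤ 1 := by
    intro k
    by_cases hk : ∃ x, x ∈ 𝒯 ∧ f x = k
    · have h1 : rep k = {hk.choose} := dif_pos hk
      rw [h1, Finset.card_singleton]
    · have h1 : rep k = ∅ := dif_neg hk
      rw [h1, Finset.card_empty]
      exact Nat.zero_le 1
  refine ⟨Finset.univ.biUnion rep, ?_, ?_, ?_⟩
  · intro x hx
    rw [Finset.mem_coe, Finset.mem_biUnion] at hx
    obtain ⟨k, _, hk⟩ := hx
    exact (hrep k x hk).1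
  · refine le_trans Finset.card_biUnion_le ?_
    refine le_trans (Finset.sum_le_sum fun k _ => hcard k) ?_
    rw [Finset.sum_const, smul_eq_mul, mul_one, Finset.card_univ, Nat.card_eq_fintype_card]
  · intro x hx
    have hk : ∃ y, y ∈ 𝒯 ∧ f y = f x := ⟨x, hx, rfl⟩
    have h1 : rep (f x) = {hk.choose} := dif_pos hk
    refine ⟨hk.choose, Finset.mem_biUnion.2 ⟨f x, Finset.mem_univ _, ?_⟩, ?_⟩
    · rw [h1]
      exact Finset.mem_singleton_self _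
    · exact h x hx _ hk.choose_spec.1 hk.choose_spec.2.symm

/-- union of two sets with representatives -/
theorem rep_union {X : Type} (𝒯 𝒯₁ 𝒯₂ : Set X) (R : X → X → Prop) (N₁ N₂ : ℕ)
    (h₁ : 𝒯₁ ⊆ 𝒯) (h₂ : 𝒯₂ ⊆ 𝒯) (h : ∀ x ∈ 𝒯, x ∈ 𝒯₁ ∨ x ∈ 𝒯₂)
    (r₁ : ∃ T : Finset X, (T : Set X) ⊆ 𝒯₁ ∧ T.card ≤ N₁ ∧ ∀ x ∈ 𝒯₁, ∃ y ∈ T, R x y)
    (r₂ : ∃ T : Finset X, (T : Set X) ⊆ 𝒯₂ ∧ T.card ≤ N₂ ∧ ∀ x ∈ 𝒯₂, ∃ y ∈ T, R x y) :
    ∃ T : Finset X, (T : Set X) ⊆ 𝒯 ∧ T.card ≤ N₁ + N₂ ∧ ∀ x ∈ 𝒯, ∃ y ∈ T, R x y := by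
  obtain ⟨T₁, a₁, b₁, c₁⟩ := r₁
  obtain ⟨T₂, a₂, b₂, c₂⟩ := r₂
  refine ⟨T₁ ∪ T₂, ?_, (Finset.card_union_le _ _).trans (Nat.add_le_add b₁ b₂), ?_⟩
  · intro x hx
    rw [Finset.mem_coe, Finset.mem_union] at hx
    rcases hx with hx | hx
    · exact h₁ (a₁ hx)
    · exact h₂ (a₂ hx)
  · intro x hx
    rcases h x hx with h' | h'
    · obtain ⟨y, hy, hy'⟩ := c₁ x h'
      exact ⟨y, Finset.mem_union_left _ hy, hy'⟩
    · obtain ⟨y, hy, hy'⟩ := c₂ x h'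
      exact ⟨y, Finset.mem_union_right _ hy, hy'⟩

end REC
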