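import Pool.Agent.Helper57.REC.Stmts6b
import Pool.Agent.Helper17.REC.Rep

/-!
# REC, FSS: finiteness for semisimple motives of rank two
-/

set_option autoImplicit false

open scoped Classical
open NumberField Polynomial

namespace REC

open MU

theorem st_FSS (hCMC : ST_CMC) (hIRB : ST_IRB) (hFIN0 : ST_FIN0) (hADK : ST_ADK)
    (hISK : ST_ISK) (hTIS : ST_TIS) : ST_FSS := by
  intro F _ _ S hS w h hh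
  obtain ⟨N₁, hN₁⟩ := hFIN0 F S hS 2 w h
  obtain ⟨κ, hκ, col, hcol⟩ := hADK F S hS w h
  obtain ⟨N₂, hN₂⟩ := hISK F S hS w h
  refine ⟨N₁ + (Nat.card κ + N₂), fun 𝒯 hss => ?_⟩
  set 𝒯₁ : Set (Mot F S 2 w h) := {M | M ∈ 𝒯 ∧ ∀ (l : ℕ) [Fact l.Prime], IsIrr (rat (M.ρ l))}
    with h𝒯₁
  set 𝒯₂ : Set (Mot F S 2 w h) := {M | M ∈ 𝒯 ∧ Cm M} with h𝒯₂
  have hs₁ : 𝒯₁ ⊆ 𝒯 := fun M hM => hM.1
  have hs₂ : 𝒯₂ ⊆ 𝒯 := fun M hM => hM.1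
  have hs : ∀ M ∈ 𝒯, M ∈ 𝒯₁ ∨ M ∈ 𝒯₂ := by
    intro M hM
    rcases hCMC F S hS w h M hh (fun l _ => hss M hM l) with h1 | h1
    · exact Or.inl ⟨hM, fun l _ => h1 l⟩
    · exact Or.inr ⟨hM, h1⟩
  obtain ⟨p₁, p₂⟩ := hN₁ 𝒯₁ (fun M hM => hIRB F S hS w h M hh (fun l _ => hM.2 l))
  constructor
  · obtain ⟨T, a, b, c⟩ := rep_union 𝒯 𝒯₁ 𝒯₂ (fun M M' => M.AdelicIso M') N₁ (Nat.card κ) hs₁ hs₂
      hs p₁ (rep_col 𝒯₂ col _ (fun M hM M' hM' he => hcol M M' hM.2 hM'.2 he))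
    exact ⟨T, a, b.trans (by omega), c⟩
  · intro hT
    obtain ⟨T, a, b, c⟩ := rep_union 𝒯 𝒯₁ 𝒯₂ (fun M M' => M.Iso M') N₁ N₂ hs₁ hs₂ hs
      (p₂ (fun M hM M' hM' he => hTIS F S 2 w h M M' (hT M hM.1 M' hM'.1) he))
      (hN₂ 𝒯₂ (fun M hM => hM.2) (fun M hM M' hM' => hT M hM.1 M' hM'.1))
    exact ⟨T, a, b.trans (by omega), c⟩

end REC
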