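import Pool.Agent.Helper85.REC.Stmts8
import Pool.Agent.Helper85.REC.IR2
import Pool.Agent.Helper22.MU.FRE

/-!
# REC, IRB: irreducible motives of rank two are residually irreducible for almost all `l`
-/

set_option autoImplicit false
set_option maxHeartbeats 800000

open scoped Classical
open NumberField Polynomial

namespace REC

open Pool.Agent.Helper13.ZL (Pl q)
open MU

/-- a stable line in rank two: the two characters -/
theorem irb_line {G K : Type} [Group G] [Field K] (r : G →* Matrix (Fin 2) (Fin 2) K)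
    (B : Matrix (Fin 2) (Fin 1) K) (A : G → Matrix (Fin 1) (Fin 1) K) (h : IsSub r B A) :
    ∃ a₁ a₂ : G →* Kˣ, (∀ g, (A g).det = a₁ g) ∧ (∀ g, (r g).det = a₁ g * a₂ g) ∧
      ∀ g, (r g).trace = a₁ g + a₂ g := by
  obtain ⟨⟨C, hC⟩, hB⟩ := h
  have hA1 : A 1 = 1 := by
    have h1 := hB 1
    rw [map_one, Matrix.one_mul] at h1
    have h2 := congrArg (fun X => C * X) h1
    simp only [← Matrix.mul_assoc, hC, Matrix.one_mul] at h2
    exact h2.symm
  have hAm : ∀ g g', A (g * g') = A g * A g' := by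
    intro g g'
    have h1 : B * A (g * g') = B * (A g * A g') := by
      rw [← hB, map_mul, Matrix.mul_assoc, hB, ← Matrix.mul_assoc, hB, Matrix.mul_assoc]
    have h2 := congrArg (fun X => C * X) h1
    simp only [← Matrix.mul_assoc, hC, Matrix.one_mul] at h2
    exact h2
  let ψ : G →* K :=
    { toFun := fun g => (A g).det
      map_one' := by simp only [hA1, Matrix.det_one]
      map_mul' := fun g g' => by simp only [hAm, Matrix.det_mul] }
  let δ : G →* K :=
    { toFun := fun g => (r g).det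
      map_one' := by simp only [map_one, Matrix.det_one]
      map_mul' := fun g g' => by simp only [map_mul, Matrix.det_mul] }
  have e1 : ∀ g, ((ψ.toHomUnits g : Kˣ) : K) = (A g).det := fun g => rfl
  have e2 : ∀ g, ((δ.toHomUnits g : Kˣ) : K) = (r g).det := fun g => rfl
  have e3 : ∀ g, (r g).det = ψ.toHomUnits g * ((δ.toHomUnits / ψ.toHomUnits) g : Kˣ) := by
    intro g
    rw [← e2, MonoidHom.div_apply, ← Units.val_mul, mul_div_cancel]
  refine ⟨ψ.toHomUnits, δ.toHomUnits / ψ.toHomUnits, fun g => rfl, e3, fun g => ?_⟩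
  have hdet : ((r g) - (A g 0 0) • (1 : Matrix (Fin 2) (Fin 2) K)).det = 0 := by
    have h1 : ((r g) - (A g 0 0) • (1 : Matrix (Fin 2) (Fin 2) K)) * B = 0 := by
      rw [Matrix.sub_mul, hB, Matrix.smul_mul, Matrix.one_mul]
      ext i j
      fin_cases j
      simp only [Matrix.sub_apply, Matrix.mul_apply, Matrix.smul_apply, Matrix.zero_apply,
        Finset.univ_unique, Fin.default_eq_zero, Finset.sum_singleton, smul_eq_mul, Fin.zero_eta]
      ring
    have h2 := congrArg (fun X => C *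
      (((r g) - (A g 0 0) • (1 : Matrix (Fin 2) (Fin 2) K)).adjugate * X)) h1
    simp only [← Matrix.mul_assoc, Matrix.mul_zero] at h2
    rw [Matrix.mul_assoc C, Matrix.adjugate_mul, Matrix.mul_smul, Matrix.smul_mul,
      Matrix.mul_one, hC] at h2
    have h3 := congrFun (congrFun h2 0) 0
    simpa using h3
  have hA00 : (A g).det = A g 0 0 := Matrix.det_fin_one _
  have h4 : (A g 0 0) ^ 2 - (r g).trace * (A g 0 0) + (r g).det = 0 := by
    rw [← hdet, Matrix.det_fin_two, Matrix.det_fin_two, Matrix.trace_fin_two]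
    simp
    ring
  have h5 := e1 g
  rw [hA00] at h5
  rw [e3 g, ← h5] at h4
  have h6 : ((ψ.toHomUnits g : Kˣ) : K) ≠ 0 := Units.ne_zero _
  have h7 : ((ψ.toHomUnits g : Kˣ) : K) * (((ψ.toHomUnits g : Kˣ) : K) +
      ((δ.toHomUnits / ψ.toHomUnits) g : Kˣ) - (r g).trace) = 0 := by
    linear_combination h4
  rcases mul_eq_zero.1 h7 with h8 | h8
  · exact absurd h8 h6
  · exact (sub_eq_zero.1 h8).symm

theorem irb_coeff {R : Type} [CommRing R] [Nontrivial R] (X : Matrix (Fin 2) (Fin 2) R) :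
    X.charpoly.coeff 1 = - X.trace ∧ X.charpoly.coeff 0 = X.det := by
  rw [Matrix.charpoly_fin_two]
  constructor
  · simp [coeff_C]
  · simp

theorem irb_rat {G : Type} [Group G] {l : ℕ} [Fact l.Prime]
    (r : G →* Matrix.GeneralLinearGroup (Fin 2) ℤ_[l]) (g : G) :
    (rat r g).trace = algebraMap ℤ_[l] ℚ_[l] (((r g : Matrix.GeneralLinearGroup (Fin 2) ℤ_[l]) :
      Matrix (Fin 2) (Fin 2) ℤ_[l]).trace) ∧
    (rat r g).det = algebraMap ℤ_[l] ℚ_[l] (((r g : Matrix.GeneralLinearGroup (Fin 2) ℤ_[l]) :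
      Matrix (Fin 2) (Fin 2) ℤ_[l]).det) := by
  rw [Matrix.trace_fin_two, Matrix.det_fin_two, Matrix.trace_fin_two, Matrix.det_fin_two,
    map_add, map_sub, map_mul, map_mul]
  exact ⟨rfl, rfl⟩

theorem irb_res {G : Type} [Group G] {l : ℕ} [Fact l.Prime]
    (r : G →* Matrix.GeneralLinearGroup (Fin 2) ℤ_[l]) (g : G) :
    (res r g).trace = PadicInt.toZMod (((r g : Matrix.GeneralLinearGroup (Fin 2) ℤ_[l]) :
      Matrix (Fin 2) (Fin 2) ℤ_[l]).trace) ∧
    (res r g).det = PadicInt.toZMod (((r g : Matrix.GeneralLinearGroup (Fin 2) ℤ_[l]) :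
      Matrix (Fin 2) (Fin 2) ℤ_[l]).det) := by
  rw [Matrix.trace_fin_two, Matrix.det_fin_two, Matrix.trace_fin_two, Matrix.det_fin_two,
    map_add, map_sub, map_mul, map_mul]
  exact ⟨rfl, rfl⟩

theorem irb_pow {A : Type} [CommMonoid A] (x y : A) (d : ℕ) (h : x ^ d = y ^ d) :
    x ^ (2 * d) = y ^ (2 * d) := by
  rw [mul_comm, pow_mul, pow_mul, h]

/-- IRB -/
theorem st_IRB (hRLN : ST_RLN) (hREL1 : ST_REL1) (_ : ST_HS2) (hLIN0 : ST_LIN0)
    (hTRP : ST_TRP) (hINL : ST_INL) (hCL2 : ST_CL2) : ST_IRB := by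
  intro F _ _ S hS w h M hh hirr
  refine ⟨hirr, ?_⟩
  by_contra hcon
  push Not at hcon
  have hcon' : ∀ c : ℕ, ∃ (l : ℕ) (_ : Fact l.Prime), c < l ∧
      ∃ (B : Matrix (Fin 2) (Fin 1) (ZMod l)) (A : Gal F → Matrix (Fin 1) (Fin 1) (ZMod l)),
        IsSub (res (M.ρ l)) B A := by
    intro c
    obtain ⟨l, hl, hcl, hir⟩ := hcon c
    unfold IsIrr at hir
    push Not at hir
    obtain ⟨m, B, A, hBA, hm0, hm2⟩ := hir
    obtain ⟨C, hC⟩ := hBA.1
    have hm := ir_dim B C hC
    obtain rfl : m = 1 := by omega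
    exact ⟨l, hl, hcl, B, A, hBA⟩
  obtain ⟨L, _, _, _, hL⟩ := ir_gal F
  obtain ⟨c₀, hc₀⟩ := hRLN F S hS 2 w h M
  obtain ⟨e, he⟩ := hREL1 F L S hS 2 w h M (by
    intro c'
    obtain ⟨l, hl, hcl, B, A, hBA⟩ := hcon' (max c₀ c')
    exact ⟨l, hl, (le_max_right c₀ c').trans_lt hcl,
      hc₀ l ((le_max_left c₀ c').trans_lt hcl) B A hBA⟩)
  obtain ⟨l₀, hl₀, H, hH, B₀, A₀, hBA₀⟩ := hLIN0 F L S hS w h M e he
  -- the normal core
  have hHf : H.FiniteIndex := by
    have := Subgroup.quotient_finite_of_isOpen H hH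
    exact Subgroup.finiteIndex_of_finite_quotient
  set H' := H.normalCore with hH'
  have hH'o : IsOpen (H' : Set (Gal F)) :=
    Subgroup.isOpen_of_isClosed_of_finiteIndex _
      (H.normalCore_isClosed (Subgroup.isClosed_of_isOpen H hH))
  have hH'n : H'.Normal := H.normalCore_normal
  have hBA' : IsSub ((rat (M.ρ l₀)).comp H'.subtype) B₀
      (fun g => A₀ ⟨g, H.normalCore_le g.2⟩) :=
    ⟨hBA₀.1, fun g => hBA₀.2 ⟨g, H.normalCore_le g.2⟩⟩
  have hd : 0 < H'.index := Nat.pos_of_ne_zero Subgroup.FiniteIndex.index_ne_zero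
  -- the two characters of the reducible reductions agree up to a bounded power
  have key : ∀ (l : ℕ) [Fact l.Prime] (a₁ a₂ : Gal F →* (ZMod l)ˣ),
      (∀ g, (res (M.ρ l) g).det = a₁ g * a₂ g) → (∀ g, (res (M.ρ l) g).trace = a₁ g + a₂ g) →
      ∀ g, (a₁ g) ^ (2 * H'.index) = (a₂ g) ^ (2 * H'.index) := by
    rcases hCL2 (Gal F) ℚ_[l₀] (rat (M.ρ l₀)) H' hH'n (hirr l₀) B₀ _ hBA' with
      ⟨G', hHG, hG'ne, htr⟩ | hsc
    · have hG'o : IsOpen (G' : Set (Gal F)) := Subgroup.isOpen_mono hHG hH'o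
      have hG'c : IsOpen ((G' : Set (Gal F))ᶜ) :=
        (Subgroup.isClosed_of_isOpen G' hG'o).isOpen_compl
      intro l _ a₁ a₂ hdet htra
      have h1 := hTRP F S hS 2 w h M _ hG'c (MvPolynomial.X 1) l₀ l (by
        intro σ hσ
        rw [MvPolynomial.aeval_X, (irb_coeff _).1]
        have h2 := htr σ hσ
        rw [(irb_rat _ _).1] at h2
        have h3 : Function.Injective (algebraMap ℤ_[l₀] ℚ_[l₀]) :=
          FaithfulSMul.algebraMap_injective _ _
        rw [h3 (h2.trans (map_zero _).symm), neg_zero])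
      have h4 : ∀ σ, σ ∉ G' → (a₁ σ) ^ 2 = (a₂ σ) ^ 2 := by
        intro σ hσ
        have h5 := h1 σ hσ
        rw [MvPolynomial.aeval_X, (irb_coeff _).1, neg_eq_zero] at h5
        have h6 := htra σ
        rw [(irb_res _ _).1, h5, map_zero] at h6
        apply Units.ext
        push_cast
        linear_combination (-(a₁ σ : ZMod l) + (a₂ σ : ZMod l)) * h6
      obtain ⟨t, ht⟩ : ∃ t, t ∉ G' := by
        by_contra hc
        push Not at hc
        exact hG'ne (by rw [eq_top_iff]; exact fun x _ => hc x)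
      intro g
      rw [pow_mul, pow_mul]
      congr 1
      by_cases hg : g ∈ G'
      · have h5 := h4 (g * t) (fun h => ht ((Subgroup.mul_mem_cancel_left G' hg).1 h))
        rw [map_mul, map_mul, mul_pow, mul_pow, h4 t ht] at h5
        exact mul_right_cancel h5
      · exact h4 g hg
    · intro l _ a₁ a₂ hdet htra
      have h1 := hTRP F S hS 2 w h M _ hH'o
        (MvPolynomial.X 1 ^ 2 - 4 * MvPolynomial.X 0) l₀ l (by
        intro σ hσ
        have h2 := hsc σ hσ
        rw [(irb_rat _ _).1, (irb_rat _ _).2] at h2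
        have h3 : Function.Injective (algebraMap ℤ_[l₀] ℚ_[l₀]) :=
          FaithfulSMul.algebraMap_injective _ _
        rw [map_sub, map_mul, map_pow, MvPolynomial.aeval_X, MvPolynomial.aeval_X,
          (irb_coeff _).1, (irb_coeff _).2]
        apply h3
        have h5 : (MvPolynomial.aeval fun i => (((M.ρ l₀ σ :
            Matrix.GeneralLinearGroup (Fin 2) ℤ_[l₀]) :
            Matrix (Fin 2) (Fin 2) ℤ_[l₀]).charpoly.coeff i)) (4 : MvPolynomial ℕ ℤ) = 4 :=
          map_ofNat _ 4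
        rw [h5, map_sub, map_mul, map_pow, map_neg, map_zero, map_ofNat]
        linear_combination h2)
      have h4 : ∀ σ ∈ H', a₁ σ = a₂ σ := by
        intro σ hσ
        have h5 := h1 σ hσ
        have h6 : (MvPolynomial.aeval fun i => (((M.ρ l σ :
            Matrix.GeneralLinearGroup (Fin 2) ℤ_[l]) :
            Matrix (Fin 2) (Fin 2) ℤ_[l]).charpoly.coeff i)) (4 : MvPolynomial ℕ ℤ) = 4 :=
          map_ofNat _ 4
        rw [map_sub, map_mul, map_pow, MvPolynomial.aeval_X, MvPolynomial.aeval_X,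
          (irb_coeff _).1, (irb_coeff _).2, h6] at h5
        have h7 := congrArg (PadicInt.toZMod (p := l)) h5
        rw [map_sub, map_mul, map_pow, map_neg, map_zero, map_ofNat, ← (irb_res _ _).1,
          ← (irb_res _ _).2, hdet, htra] at h7
        have h8 : ((a₁ σ : ZMod l) - (a₂ σ : ZMod l)) ^ 2 = 0 := by linear_combination h7
        exact Units.ext (sub_eq_zero.1 (pow_eq_zero_iff two_ne_zero |>.1 h8))
      intro g
      apply irb_pow
      rw [← map_pow, ← map_pow]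
      exact h4 _ (H'.pow_index_mem g)
  -- a large prime
  obtain ⟨c₂, hc₂⟩ := M.fontaineLaffaille
  set Δ : ℕ := max (h 0) (h 1) - min (h 0) (h 1) with hΔ
  have hΔ0 : 0 < Δ := by
    rcases lt_or_gt_of_ne hh with h1 | h1
    · rw [hΔ, max_eq_right h1.le, min_eq_left h1.le]; omega
    · rw [hΔ, max_eq_left (le_of_lt h1), min_eq_right (le_of_lt h1)]; omega
  obtain ⟨c₁, hc₁⟩ := hINL F (2 * H'.index * Δ) (by positivity)
  obtain ⟨l, hl, hcl, B, A, hBA⟩ := hcon' (max c₁ c₂)
  obtain ⟨a₁, a₂, hA, hdet, htra⟩ := irb_line _ B A hBA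
  have hk := key l a₁ a₂ hdet htra
  obtain ⟨𝔓, h𝔓, -⟩ := (MU.st_FRE F l hl.out).1
  obtain ⟨σ, hσ, hσ1⟩ := hc₁ l ((le_max_left _ _).trans_lt hcl) 𝔓 h𝔓
  obtain ⟨J, hJc, hJ⟩ := hc₂ l ((le_max_right _ _).trans_lt hcl) 1 B A hBA 𝔓 h𝔓
  obtain ⟨J', hJ'c, hJ'⟩ := hc₂ l ((le_max_right _ _).trans_lt hcl) 2 1 (fun g => res (M.ρ l) g)
    ⟨⟨1, by rw [Matrix.mul_one]⟩, fun g => by rw [Matrix.mul_one, Matrix.one_mul]⟩ 𝔓 h𝔓
  have hJ'u : J' = Finset.univ := by
    rw [← Finset.card_eq_iff_eq_univ, hJ'c, Fintype.card_fin]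
  obtain ⟨j, rfl⟩ := Finset.card_eq_one.1 hJc
  have h1 := hJ σ hσ
  have h2 := hJ' σ hσ
  rw [Finset.sum_singleton, hA] at h1
  rw [hJ'u, Fin.sum_univ_two, hdet] at h2
  apply hσ1
  set z : ZMod l := PadicInt.toZMod ((cyc l F σ : ℤ_[l]ˣ) : ℤ_[l]) with hz
  have hz0 : z ≠ 0 := by
    intro h3
    have h4 : IsUnit z := by
      rw [hz]
      exact (cyc l F σ).isUnit.map _
    rw [h3] at h4
    exact not_isUnit_zero h4
  have hk' : ((a₁ σ : (ZMod l)ˣ) : ZMod l) ^ (2 * H'.index) =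
      ((a₂ σ : (ZMod l)ˣ) : ZMod l) ^ (2 * H'.index) := by
    have := congrArg (fun u : (ZMod l)ˣ => (u : ZMod l)) (hk σ)
    simpa using this
  have ha1 : ((a₁ σ : (ZMod l)ˣ) : ZMod l) ≠ 0 := Units.ne_zero _
  have ha2 : ((a₂ σ : (ZMod l)ˣ) : ZMod l) ≠ 0 := Units.ne_zero _
  set x : ZMod l := ((a₁ σ : (ZMod l)ˣ) : ZMod l) with hx
  set y : ZMod l := ((a₂ σ : (ZMod l)ˣ) : ZMod l) with hy
  have h3 : z ^ (2 * H'.index * h 0) = z ^ (2 * H'.index * h 1) := by
    have hxp : x ^ (2 * H'.index) ≠ 0 := pow_ne_zero _ ha1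
    have hgen : ∀ u v : ℕ, x * z ^ u = 1 → x * y * z ^ (u + v) = 1 →
        z ^ (2 * H'.index * u) = z ^ (2 * H'.index * v) := by
      intro u v hu huv
      have e1 : y * z ^ v = 1 := by
        calc y * z ^ v = (x * z ^ u) * (y * z ^ v) := by rw [hu, one_mul]
          _ = x * y * z ^ (u + v) := by rw [pow_add]; ring
          _ = 1 := huv
      have e2 : x ^ (2 * H'.index) * z ^ (2 * H'.index * u) = 1 := by
        rw [mul_comm (2 * H'.index) u, pow_mul z, ← mul_pow, hu, one_pow]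
      have e3 : x ^ (2 * H'.index) * z ^ (2 * H'.index * v) = 1 := by
        rw [hk', mul_comm (2 * H'.index) v, pow_mul z, ← mul_pow, e1, one_pow]
      exact mul_left_cancel₀ hxp (e2.trans e3.symm)
    fin_cases j
    · exact hgen (h 0) (h 1) h1 h2
    · exact (hgen (h 1) (h 0) h1 (by rw [add_comm]; exact h2)).symm
  rcases lt_or_gt_of_ne hh with h4 | h4
  · have h5 : 2 * H'.index * h 1 = 2 * H'.index * h 0 + 2 * H'.index * Δ := by
      rw [← Nat.mul_add]
      congr 1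
      rw [hΔ, max_eq_right h4.le, min_eq_left h4.le]; omega
    rw [h5, pow_add] at h3
    exact (mul_left_cancel₀ (pow_ne_zero _ hz0) (by rw [mul_one]; exact h3)).symm
  · have h5 : 2 * H'.index * h 0 = 2 * H'.index * h 1 + 2 * H'.index * Δ := by
      rw [← Nat.mul_add]
      congr 1
      rw [hΔ, max_eq_left (le_of_lt h4), min_eq_right (le_of_lt h4)]; omega
    rw [h5, pow_add] at h3
    exact mul_left_cancel₀ (pow_ne_zero _ hz0) (by rw [mul_one]; exact h3)

end REC
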