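import Pool.Agent.Helper57.REC.Stmts6b
import Pool.Agent.Helper17.REC.Rep

/-!
# REC, ISK: finitely many isomorphism classes of commutative motives
-/

set_option autoImplicit false
set_option maxHeartbeats 800000

open scoped Classical
open NumberField Polynomial

namespace REC

open MU

/-- the adjugate of a two by two matrix, written out -/
def adj2 {R : Type} [CommRing R] (A : Matrix (Fin 2) (Fin 2) R) : Matrix (Fin 2) (Fin 2) R :=
  !![A 1 1, -A 0 1; -A 1 0, A 0 0]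

theorem adj2_map {R R' : Type} [CommRing R] [CommRing R'] (f : R →+* R')
    (A : Matrix (Fin 2) (Fin 2) R) : adj2 (A.map f) = (adj2 A).map f := by
  ext i j
  fin_cases i <;> fin_cases j <;> simp [adj2]

theorem adj2_lin {R : Type} [CommRing R] (a b : R) (A : Matrix (Fin 2) (Fin 2) R) :
    adj2 (a • (1 : Matrix (Fin 2) (Fin 2) R) + b • A) =
      a • (1 : Matrix (Fin 2) (Fin 2) R) + b • adj2 A := by
  ext i j
  fin_cases i <;> fin_cases j <;> simp [adj2]

/-- the commutant of a matrix with distinct eigenvalues -/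
theorem isk_comm {K : Type} [Field K] (t X : Matrix (Fin 2) (Fin 2) K) (ht : dsc t ≠ 0)
    (h : X * t = t * X) : ∃ a b : K, X = a • (1 : Matrix (Fin 2) (Fin 2) K) + b • t := by
  have e00 : X 0 1 * t 1 0 = t 0 1 * X 1 0 := by
    have := congrFun (congrFun h 0) 0
    simp only [Matrix.mul_apply, Fin.sum_univ_two] at this
    linear_combination this
  have e01 : (X 0 0 - X 1 1) * t 0 1 = (t 0 0 - t 1 1) * X 0 1 := by
    have := congrFun (congrFun h 0) 1
    simp only [Matrix.mul_apply, Fin.sum_univ_two] at this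
    linear_combination this
  have e10 : (X 0 0 - X 1 1) * t 1 0 = (t 0 0 - t 1 1) * X 1 0 := by
    have := congrFun (congrFun h 1) 0
    simp only [Matrix.mul_apply, Fin.sum_univ_two] at this
    linear_combination -this
  have hb : ∃ b : K, X 0 1 = b * t 0 1 ∧ X 1 0 = b * t 1 0 ∧ X 0 0 - X 1 1 = b * (t 0 0 - t 1 1) := by
    by_cases h01 : t 0 1 = 0
    · by_cases h10 : t 1 0 = 0
      · have h00 : t 0 0 - t 1 1 ≠ 0 := by
          intro h0
          apply ht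
          simp only [dsc, h01, h10]
          linear_combination (t 0 0 - t 1 1) * h0
        rw [h01, mul_zero] at e01
        rw [h10, mul_zero] at e10
        refine ⟨(X 0 0 - X 1 1) / (t 0 0 - t 1 1), ?_, ?_, ?_⟩
        · rw [h01, mul_zero]
          exact (mul_eq_zero.1 e01.symm).resolve_left h00
        · rw [h10, mul_zero]
          exact (mul_eq_zero.1 e10.symm).resolve_left h00
        · rw [div_mul_cancel₀ _ h00]
      · refine ⟨X 1 0 / t 1 0, ?_, ?_, ?_⟩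
        · rw [h01, mul_zero]
          rw [h01, zero_mul] at e00
          exact (mul_eq_zero.1 e00).resolve_right h10
        · rw [div_mul_cancel₀ _ h10]
        · field_simp
          linear_combination e10
    · refine ⟨X 0 1 / t 0 1, ?_, ?_, ?_⟩
      · rw [div_mul_cancel₀ _ h01]
      · field_simp
        linear_combination -e00
      · field_simp
        linear_combination e01
  obtain ⟨b, h1, h2, h3⟩ := hb
  refine ⟨X 1 1 - b * t 1 1, b, ?_⟩
  ext i j
  fin_cases i <;> fin_cases j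
  · simp only [Fin.zero_eta, Matrix.add_apply, Matrix.smul_apply, Matrix.one_apply_eq, smul_eq_mul]
    linear_combination h3
  · simp only [Fin.zero_eta, Fin.mk_one, Matrix.add_apply, Matrix.smul_apply, smul_eq_mul]
    rw [Matrix.one_apply_ne (by decide)]
    linear_combination h1
  · simp only [Fin.zero_eta, Fin.mk_one, Matrix.add_apply, Matrix.smul_apply, smul_eq_mul]
    rw [Matrix.one_apply_ne (by decide)]
    linear_combination h2
  · simp only [Fin.mk_one, Matrix.add_apply, Matrix.smul_apply, Matrix.one_apply_eq, smul_eq_mul]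
    ring

/-- a matrix similar to `t` in the algebra generated by `t` is `t` or its conjugate -/
theorem isk_conj {K : Type} [Field K] [CharZero K] (t s y y' : Matrix (Fin 2) (Fin 2) K)
    (ht : dsc t ≠ 0) (hy : y * y' = 1) (hy' : y' * y = 1) (h : y * t = s * y) (a b : K)
    (hs : s = a • (1 : Matrix (Fin 2) (Fin 2) K) + b • t) : s = t ∨ s = adj2 t := by
  have hs' : s = y * t * y' := by
    rw [h, mul_assoc, hy, mul_one]
  have htr : s.trace = t.trace := by
    rw [hs', Matrix.trace_mul_comm, ← mul_assoc, hy', one_mul]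
  have hdet : s.det = t.det := by
    rw [hs', Matrix.det_mul_comm, ← mul_assoc, hy', one_mul]
  rw [Matrix.trace_fin_two, Matrix.trace_fin_two] at htr
  rw [Matrix.det_fin_two, Matrix.det_fin_two] at hdet
  have h00 : s 0 0 = a + b * t 0 0 := by rw [hs]; simp
  have h01 : s 0 1 = b * t 0 1 := by rw [hs]; simp
  have h10 : s 1 0 = b * t 1 0 := by rw [hs]; simp
  have h11 : s 1 1 = a + b * t 1 1 := by rw [hs]; simp
  rw [h00, h11] at htr
  rw [h00, h01, h10, h11] at hdet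
  have hb : ((b - 1) * (b + 1)) * dsc t = 0 := by
    simp only [dsc]
    linear_combination (2 * a + b * (t 0 0 + t 1 1) + t 0 0 + t 1 1) * htr - 4 * hdet
  have hb' : (b - 1) * (b + 1) = 0 := (mul_eq_zero.1 hb).resolve_right ht
  have h2 : (2 : K) ≠ 0 := two_ne_zero
  rcases mul_eq_zero.1 hb' with h1 | h1
  · left
    have hb1 : b = 1 := by linear_combination h1
    have ha : a = 0 := by
      have e1 : 2 * a = 0 := by
        rw [hb1] at htr
        linear_combination htr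
      exact (mul_eq_zero.1 e1).resolve_left h2
    rw [hs, ha, hb1, zero_smul, one_smul, zero_add]
  · right
    have hb1 : b = -1 := by linear_combination h1
    have ha : a = t 0 0 + t 1 1 := by
      have e1 : 2 * (a - (t 0 0 + t 1 1)) = 0 := by
        rw [hb1] at htr
        linear_combination htr
      exact sub_eq_zero.1 ((mul_eq_zero.1 e1).resolve_left h2)
    rw [hs, ha, hb1]
    ext i j
    fin_cases i <;> fin_cases j <;> simp [adj2]

theorem map_units {R R' : Type} [CommRing R] [CommRing R'] (f : R →+* R')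
    (u : Matrix.GeneralLinearGroup (Fin 2) R) :
    (u : Matrix (Fin 2) (Fin 2) R).map f *
      ((u⁻¹ : Matrix.GeneralLinearGroup (Fin 2) R) : Matrix (Fin 2) (Fin 2) R).map f = 1 ∧
    ((u⁻¹ : Matrix.GeneralLinearGroup (Fin 2) R) : Matrix (Fin 2) (Fin 2) R).map f *
      (u : Matrix (Fin 2) (Fin 2) R).map f = 1 := by
  constructor
  · rw [← Matrix.map_mul, Units.mul_inv, Matrix.map_one f (map_zero f) (map_one f)]
  · rw [← Matrix.map_mul, Units.inv_mul, Matrix.map_one f (map_zero f) (map_one f)]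

theorem map_int {R R' : Type} [CommRing R] [CommRing R'] (f : R →+* R')
    (A : Matrix (Fin 2) (Fin 2) ℤ) :
    (A.map (algebraMap ℤ R)).map f = A.map (algebraMap ℤ R') := by
  ext i j
  simp

section

variable {F : Type} [Field F] [NumberField F] {S : Finset ℕ} {w : ℕ} {h : Fin 2 → ℕ}

/-- the realization in another basis of the lattice -/
noncomputable def RR (M : Mot F S 2 w h) (u : Matrix.GeneralLinearGroup (Fin 2) ℤ) (l : ℕ)
    [Fact l.Prime] (g : Gal F) : Matrix (Fin 2) (Fin 2) ℤ_[l] :=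
  (u : Matrix (Fin 2) (Fin 2) ℤ).map (algebraMap ℤ ℤ_[l]) *
    (M.ρ l g : Matrix (Fin 2) (Fin 2) ℤ_[l]) *
    ((u⁻¹ : Matrix.GeneralLinearGroup (Fin 2) ℤ) : Matrix (Fin 2) (Fin 2) ℤ).map
      (algebraMap ℤ ℤ_[l])

/-- the matrix `t` commutes with the realization in the new basis -/
theorem RR_comm (M : Mot F S 2 w h) (ω t : Matrix (Fin 2) (Fin 2) ℤ) (c : ℤ)
    (u : Matrix.GeneralLinearGroup (Fin 2) ℤ) (hω : IsGen M ω)
    (e : (u : Matrix (Fin 2) (Fin 2) ℤ) * ω =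
      (t + c • (1 : Matrix (Fin 2) (Fin 2) ℤ)) * u) (l : ℕ) [Fact l.Prime] (g : Gal F) :
    RR M u l g * t.map (algebraMap ℤ ℤ_[l]) = t.map (algebraMap ℤ ℤ_[l]) * RR M u l g := by
  obtain ⟨h1, h2⟩ := map_units (algebraMap ℤ ℤ_[l]) u
  have h3 := ((hω.2 l).1 g)
  have e1 := congrArg (fun X : Matrix (Fin 2) (Fin 2) ℤ => X.map (algebraMap ℤ ℤ_[l])) e
  simp only [Matrix.map_mul] at e1
  have hc : (t + c • (1 : Matrix (Fin 2) (Fin 2) ℤ)).map (algebraMap ℤ ℤ_[l]) =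
      t.map (algebraMap ℤ ℤ_[l]) + ((c : ℤ) : ℤ_[l]) • (1 : Matrix (Fin 2) (Fin 2) ℤ_[l]) := by
    ext i j
    rw [Matrix.map_apply, Matrix.add_apply, Matrix.add_apply, Matrix.smul_apply,
      Matrix.smul_apply, Matrix.map_apply, map_add, Matrix.one_apply, Matrix.one_apply]
    congr 1
    split_ifs <;> simp
  rw [hc] at e1
  set U := (u : Matrix (Fin 2) (Fin 2) ℤ).map (algebraMap ℤ ℤ_[l]) with hU
  set V := ((u⁻¹ : Matrix.GeneralLinearGroup (Fin 2) ℤ) : Matrix (Fin 2) (Fin 2) ℤ).map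
    (algebraMap ℤ ℤ_[l]) with hV
  set W := ω.map (algebraMap ℤ ℤ_[l]) with hW
  set T := t.map (algebraMap ℤ ℤ_[l]) with hT
  set ρ := (M.ρ l g : Matrix (Fin 2) (Fin 2) ℤ_[l]) with hρ
  have e2 : T = U * W * V - ((c : ℤ) : ℤ_[l]) • (1 : Matrix (Fin 2) (Fin 2) ℤ_[l]) := by
    rw [e1, mul_assoc, h1, mul_one, add_sub_cancel_right]
  have e3 : RR M u l g = U * ρ * V := rfl
  rw [e3, e2, mul_sub, sub_mul, Matrix.mul_smul, Matrix.smul_mul, mul_one, one_mul]
  congr 1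
  calc U * ρ * V * (U * W * V) = U * ρ * (V * U) * W * V := by simp only [mul_assoc]
    _ = U * (ρ * W) * V := by rw [h2, mul_one]; simp only [mul_assoc]
    _ = U * (W * ρ) * V := by rw [h3]
    _ = U * W * (V * U) * ρ * V := by rw [h2, mul_one]; simp only [mul_assoc]
    _ = U * W * V * (U * ρ * V) := by simp only [mul_assoc]

theorem RR_dsc (ω t : Matrix (Fin 2) (Fin 2) ℤ) (c : ℤ) (u : Matrix.GeneralLinearGroup (Fin 2) ℤ)
    (hω : dsc ω ≠ 0) (e : (u : Matrix (Fin 2) (Fin 2) ℤ) * ω =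
      (t + c • (1 : Matrix (Fin 2) (Fin 2) ℤ)) * u) : dsc t ≠ 0 := by
  have h1 : dsc ω = dsc (t + c • (1 : Matrix (Fin 2) (Fin 2) ℤ)) := by
    have hs : t + c • (1 : Matrix (Fin 2) (Fin 2) ℤ) = (u : Matrix (Fin 2) (Fin 2) ℤ) * ω *
        ((u⁻¹ : Matrix.GeneralLinearGroup (Fin 2) ℤ) : Matrix (Fin 2) (Fin 2) ℤ) := by
      rw [e, mul_assoc, Units.mul_inv, mul_one]
    rw [dsc_eq, dsc_eq, hs, Matrix.trace_mul_comm, ← mul_assoc, Units.inv_mul, one_mul,
      Matrix.det_mul_comm, ← mul_assoc, Units.inv_mul, one_mul]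
  have h2 : dsc (t + c • (1 : Matrix (Fin 2) (Fin 2) ℤ)) = dsc t := by
    have := dsc_lin t 1 c
    rw [one_smul, one_pow, one_mul] at this
    exact this
  rw [← h2, ← h1]
  exact hω

theorem dsc_map {R R' : Type} [CommRing R] [CommRing R'] (f : R →+* R')
    (A : Matrix (Fin 2) (Fin 2) R) : dsc (A.map f) = f (dsc A) := by
  simp only [dsc, map_sub, map_mul, map_pow, map_add, Matrix.map_apply, map_ofNat]

/-- Iso from equal realizations -/
theorem RR_iso (M M' : Mot F S 2 w h) (u u' : Matrix.GeneralLinearGroup (Fin 2) ℤ)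
    (hR : ∀ (l : ℕ) [Fact l.Prime] (g : Gal F), RR M u l g = RR M' u' l g) : M.Iso M' := by
  refine ⟨u'⁻¹ * u, fun l _ g => ?_⟩
  obtain ⟨h1, h2⟩ := map_units (algebraMap ℤ ℤ_[l]) u
  obtain ⟨h3, h4⟩ := map_units (algebraMap ℤ ℤ_[l]) u'
  have h5 := hR l g
  unfold RR at h5
  rw [Units.val_mul, Matrix.map_mul]
  set U := (u : Matrix (Fin 2) (Fin 2) ℤ).map (algebraMap ℤ ℤ_[l]) with hU
  set V := ((u⁻¹ : Matrix.GeneralLinearGroup (Fin 2) ℤ) : Matrix (Fin 2) (Fin 2) ℤ).map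
    (algebraMap ℤ ℤ_[l]) with hV
  set U' := (u' : Matrix (Fin 2) (Fin 2) ℤ).map (algebraMap ℤ ℤ_[l]) with hU'
  set V' := ((u'⁻¹ : Matrix.GeneralLinearGroup (Fin 2) ℤ) : Matrix (Fin 2) (Fin 2) ℤ).map
    (algebraMap ℤ ℤ_[l]) with hV'
  set ρ := (M.ρ l g : Matrix (Fin 2) (Fin 2) ℤ_[l]) with hρ
  set ρ' := (M'.ρ l g : Matrix (Fin 2) (Fin 2) ℤ_[l]) with hρ'
  calc V' * U * ρ = V' * (U * ρ * V) * U := by
        rw [mul_assoc (V') (U * ρ * V) U, mul_assoc (U * ρ) V U, h2, mul_one, mul_assoc]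
    _ = V' * (U' * ρ' * V') * U := by rw [h5]
    _ = (V' * U') * ρ' * (V' * U) := by simp only [mul_assoc]
    _ = ρ' * (V' * U) := by rw [h4, one_mul]

/-- two motives with the same matrix `t` -/
theorem isk_key (M M' : Mot F S 2 w h) (ω ω' t : Matrix (Fin 2) (Fin 2) ℤ) (c c' : ℤ)
    (u u' : Matrix.GeneralLinearGroup (Fin 2) ℤ) (hM : Cm M) (hω : IsGen M ω) (hω' : IsGen M' ω')
    (e : (u : Matrix (Fin 2) (Fin 2) ℤ) * ω = (t + c • (1 : Matrix (Fin 2) (Fin 2) ℤ)) * u)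
    (e' : (u' : Matrix (Fin 2) (Fin 2) ℤ) * ω' = (t + c' • (1 : Matrix (Fin 2) (Fin 2) ℤ)) * u')
    (hi : M.Isog M') :
    (∀ (l : ℕ) [Fact l.Prime] (g : Gal F), RR M u l g = RR M' u' l g) ∨
    ∀ (l : ℕ) [Fact l.Prime] (g : Gal F), RR M' u' l g = adj2 (RR M u l g) := by
  have ht := RR_dsc ω t c u hω.1 e
  obtain ⟨z, hz⟩ := hi
  -- the rational matrix `y`
  set y : Matrix (Fin 2) (Fin 2) ℚ := (u' : Matrix (Fin 2) (Fin 2) ℤ).map (algebraMap ℤ ℚ) *
    (z : Matrix (Fin 2) (Fin 2) ℚ) *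
    ((u⁻¹ : Matrix.GeneralLinearGroup (Fin 2) ℤ) : Matrix (Fin 2) (Fin 2) ℤ).map
      (algebraMap ℤ ℚ) with hy
  set y' : Matrix (Fin 2) (Fin 2) ℚ := (u : Matrix (Fin 2) (Fin 2) ℤ).map (algebraMap ℤ ℚ) *
    ((z⁻¹ : Matrix.GeneralLinearGroup (Fin 2) ℚ) : Matrix (Fin 2) (Fin 2) ℚ) *
    ((u'⁻¹ : Matrix.GeneralLinearGroup (Fin 2) ℤ) : Matrix (Fin 2) (Fin 2) ℤ).map
      (algebraMap ℤ ℚ) with hy'
  obtain ⟨a1, a2⟩ := map_units (algebraMap ℤ ℚ) u
  obtain ⟨a3, a4⟩ := map_units (algebraMap ℤ ℚ) u'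
  have hyy' : y * y' = 1 := by
    rw [hy, hy']
    calc _ = (u' : Matrix (Fin 2) (Fin 2) ℤ).map (algebraMap ℤ ℚ) *
          (z : Matrix (Fin 2) (Fin 2) ℚ) *
          (((u⁻¹ : Matrix.GeneralLinearGroup (Fin 2) ℤ) : Matrix (Fin 2) (Fin 2) ℤ).map
            (algebraMap ℤ ℚ) * (u : Matrix (Fin 2) (Fin 2) ℤ).map (algebraMap ℤ ℚ)) *
          ((z⁻¹ : Matrix.GeneralLinearGroup (Fin 2) ℚ) : Matrix (Fin 2) (Fin 2) ℚ) *
          ((u'⁻¹ : Matrix.GeneralLinearGroup (Fin 2) ℤ) : Matrix (Fin 2) (Fin 2) ℤ).map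
            (algebraMap ℤ ℚ) := by simp only [mul_assoc]
      _ = (u' : Matrix (Fin 2) (Fin 2) ℤ).map (algebraMap ℤ ℚ) *
          ((z : Matrix (Fin 2) (Fin 2) ℚ) *
          ((z⁻¹ : Matrix.GeneralLinearGroup (Fin 2) ℚ) : Matrix (Fin 2) (Fin 2) ℚ)) *
          ((u'⁻¹ : Matrix.GeneralLinearGroup (Fin 2) ℤ) : Matrix (Fin 2) (Fin 2) ℤ).map
            (algebraMap ℤ ℚ) := by rw [a2, mul_one]; simp only [mul_assoc]
      _ = 1 := by rw [Units.mul_inv, mul_one, a3]
  have hy'y : y' * y = 1 := mul_eq_one_comm.1 hyy'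
  -- intertwining over `ℚ_l`
  have hint : ∀ (l : ℕ) [Fact l.Prime] (g : Gal F),
      y.map (algebraMap ℚ ℚ_[l]) * (RR M u l g).map (algebraMap ℤ_[l] ℚ_[l]) =
        (RR M' u' l g).map (algebraMap ℤ_[l] ℚ_[l]) * y.map (algebraMap ℚ ℚ_[l]) := by
    intro l _ g
    have h1 := hz l g
    have h2 : ∀ (N : Mot F S 2 w h) (v : Matrix.GeneralLinearGroup (Fin 2) ℤ),
        (RR N v l g).map (algebraMap ℤ_[l] ℚ_[l]) =
          (v : Matrix (Fin 2) (Fin 2) ℤ).map (algebraMap ℤ ℚ_[l]) * rat (N.ρ l) g *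
          ((v⁻¹ : Matrix.GeneralLinearGroup (Fin 2) ℤ) : Matrix (Fin 2) (Fin 2) ℤ).map
            (algebraMap ℤ ℚ_[l]) := by
      intro N v
      unfold RR
      rw [Matrix.map_mul, Matrix.map_mul, map_int, map_int]
      rfl
    obtain ⟨b1, b2⟩ := map_units (algebraMap ℤ ℚ_[l]) u
    obtain ⟨b3, b4⟩ := map_units (algebraMap ℤ ℚ_[l]) u'
    rw [h2, h2, hy, Matrix.map_mul, Matrix.map_mul, map_int, map_int]
    set U := (u : Matrix (Fin 2) (Fin 2) ℤ).map (algebraMap ℤ ℚ_[l]) with hU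
    set V := ((u⁻¹ : Matrix.GeneralLinearGroup (Fin 2) ℤ) : Matrix (Fin 2) (Fin 2) ℤ).map
      (algebraMap ℤ ℚ_[l]) with hV
    set U' := (u' : Matrix (Fin 2) (Fin 2) ℤ).map (algebraMap ℤ ℚ_[l]) with hU'
    set V' := ((u'⁻¹ : Matrix.GeneralLinearGroup (Fin 2) ℤ) : Matrix (Fin 2) (Fin 2) ℤ).map
      (algebraMap ℤ ℚ_[l]) with hV'
    set Z := (z : Matrix (Fin 2) (Fin 2) ℚ).map (algebraMap ℚ ℚ_[l]) with hZ
    calc U' * Z * V * (U * rat (M.ρ l) g * V) = U' * Z * (V * U) * rat (M.ρ l) g * V := by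
          simp only [mul_assoc]
      _ = U' * (Z * rat (M.ρ l) g) * V := by rw [b2, mul_one]; simp only [mul_assoc]
      _ = U' * (rat (M'.ρ l) g * Z) * V := by rw [h1]
      _ = U' * rat (M'.ρ l) g * (V' * U') * Z * V := by rw [b4, mul_one]; simp only [mul_assoc]
      _ = U' * rat (M'.ρ l) g * V' * (U' * Z * V) := by simp only [mul_assoc]
  -- maps of units
  have hYY : ∀ (l : ℕ) [Fact l.Prime], y.map (algebraMap ℚ ℚ_[l]) * y'.map (algebraMap ℚ ℚ_[l]) = 1 ∧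
      y'.map (algebraMap ℚ ℚ_[l]) * y.map (algebraMap ℚ ℚ_[l]) = 1 := by
    intro l _
    rw [← Matrix.map_mul, ← Matrix.map_mul, hyy', hy'y]
    exact ⟨Matrix.map_one _ (map_zero _) (map_one _), Matrix.map_one _ (map_zero _) (map_one _)⟩
  have htl : ∀ (l : ℕ) [Fact l.Prime], dsc (t.map (algebraMap ℤ ℚ_[l])) ≠ 0 := by
    intro l _ h0
    rw [dsc_map] at h0
    exact ht ((map_eq_zero_iff _ (algebraMap ℤ ℚ_[l]).injective_int).1 h0)
  have hlin : ∀ (l : ℕ) [Fact l.Prime] (g : Gal F) (N : Mot F S 2 w h)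
      (v : Matrix.GeneralLinearGroup (Fin 2) ℤ) (η : Matrix (Fin 2) (Fin 2) ℤ) (d : ℤ), IsGen N η →
      (v : Matrix (Fin 2) (Fin 2) ℤ) * η = (t + d • (1 : Matrix (Fin 2) (Fin 2) ℤ)) * v →
      ∃ a b : ℚ_[l], (RR N v l g).map (algebraMap ℤ_[l] ℚ_[l]) =
        a • (1 : Matrix (Fin 2) (Fin 2) ℚ_[l]) + b • t.map (algebraMap ℤ ℚ_[l]) := by
    intro l _ g N v η d hη hv
    apply isk_comm _ _ (htl l)
    have h1 := congrArg (fun X : Matrix (Fin 2) (Fin 2) ℤ_[l] => X.map (algebraMap ℤ_[l] ℚ_[l]))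
      (RR_comm N η t d v hη hv l g)
    simp only [Matrix.map_mul, map_int] at h1
    exact h1
  -- a regular element
  have hyt : y * t.map (algebraMap ℤ ℚ) = t.map (algebraMap ℤ ℚ) * y ∨
      y * t.map (algebraMap ℤ ℚ) = adj2 (t.map (algebraMap ℤ ℚ)) * y := by
    obtain ⟨l, hl, g₀, hg₀⟩ := hM.2
    obtain ⟨a, b, hab⟩ := hlin l g₀ M u ω c hω e
    obtain ⟨a', b', hab'⟩ := hlin l g₀ M' u' ω' c' hω' e'
    obtain ⟨c1, c2⟩ := hYY l
    have hb : b ≠ 0 := by
      rintro rfl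
      apply hg₀
      have h1 : dsc ((RR M u l g₀).map (algebraMap ℤ_[l] ℚ_[l])) = 0 := by
        rw [hab, zero_smul, add_zero]
        simp [dsc]
        ring
      have h2 : dsc (RR M u l g₀) = dsc (M.ρ l g₀ : Matrix (Fin 2) (Fin 2) ℤ_[l]) := by
        obtain ⟨d1, d2⟩ := map_units (algebraMap ℤ ℤ_[l]) u
        unfold RR
        rw [dsc_eq, dsc_eq, Matrix.trace_mul_comm, ← mul_assoc, d2, one_mul,
          Matrix.det_mul_comm, ← mul_assoc, d2, one_mul]
      rw [dsc_map, h2] at h1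
      exact (map_eq_zero_iff _ (FaithfulSMul.algebraMap_injective ℤ_[l] ℚ_[l])).1 h1
    set Y := y.map (algebraMap ℚ ℚ_[l]) with hY
    set Y' := y'.map (algebraMap ℚ ℚ_[l]) with hY'
    set T := t.map (algebraMap ℤ ℚ_[l]) with hT
    set s := Y * T * Y' with hs
    have h3 : Y * T = s * Y := by rw [hs, mul_assoc, c2, mul_one]
    have h4 : s = (b⁻¹ * (a' - a)) • (1 : Matrix (Fin 2) (Fin 2) ℚ_[l]) + (b⁻¹ * b') • T := by
      have h5 := hint l g₀
      rw [hab, hab'] at h5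
      have h6 : a • (1 : Matrix (Fin 2) (Fin 2) ℚ_[l]) + b • s =
          a' • (1 : Matrix (Fin 2) (Fin 2) ℚ_[l]) + b' • T := by
        have h7 := congrArg (fun X => X * Y') h5
        simp only [mul_add, add_mul, Matrix.mul_smul, Matrix.smul_mul, mul_one, one_mul] at h7
        rw [c1, mul_assoc T, c1, mul_one] at h7
        exact h7
      have h8 : b • s = (a' - a) • (1 : Matrix (Fin 2) (Fin 2) ℚ_[l]) + b' • T := by
        rw [sub_smul, ← sub_eq_zero]
        have h7 := sub_eq_zero.2 h6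
        rw [← h7]
        abel
      have h9 : s = b⁻¹ • (b • s) := by rw [smul_smul, inv_mul_cancel₀ hb, one_smul]
      rw [h9, h8, smul_add, smul_smul, smul_smul]
    have hinj : Function.Injective fun X : Matrix (Fin 2) (Fin 2) ℚ =>
        X.map (algebraMap ℚ ℚ_[l]) := Matrix.map_injective (algebraMap ℚ ℚ_[l]).injective
    rcases isk_conj T s Y Y' (htl l) c1 c2 h3 _ _ h4 with h5 | h5
    · left
      apply hinj
      simp only [Matrix.map_mul, map_int]
      rw [h5] at h3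
      exact h3
    · right
      apply hinj
      simp only [Matrix.map_mul, ← adj2_map, map_int]
      rw [h5] at h3
      exact h3
  have hinj : ∀ (l : ℕ) [Fact l.Prime], Function.Injective
      fun X : Matrix (Fin 2) (Fin 2) ℤ_[l] => X.map (algebraMap ℤ_[l] ℚ_[l]) :=
    fun l _ => Matrix.map_injective (FaithfulSMul.algebraMap_injective ℤ_[l] ℚ_[l])
  rcases hyt with hyt | hyt
  · left
    intro l _ g
    apply hinj l
    obtain ⟨c1, c2⟩ := hYY l
    obtain ⟨a, b, hab⟩ := hlin l g M u ω c hω e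
    have h1 := hint l g
    have h2 := congrArg (fun X : Matrix (Fin 2) (Fin 2) ℚ => X.map (algebraMap ℚ ℚ_[l])) hyt
    simp only [Matrix.map_mul, map_int] at h2
    have h3 : y.map (algebraMap ℚ ℚ_[l]) * (RR M u l g).map (algebraMap ℤ_[l] ℚ_[l]) =
        (RR M u l g).map (algebraMap ℤ_[l] ℚ_[l]) * y.map (algebraMap ℚ ℚ_[l]) := by
      rw [hab, mul_add, add_mul, Matrix.mul_smul, Matrix.smul_mul, Matrix.mul_smul,
        Matrix.smul_mul, mul_one, one_mul, h2]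
    rw [h1] at h3
    have h4 := congrArg (fun X => X * y'.map (algebraMap ℚ ℚ_[l])) h3
    simp only [mul_assoc, c1, mul_one] at h4
    exact h4.symm
  · right
    intro l _ g
    apply hinj l
    obtain ⟨c1, c2⟩ := hYY l
    obtain ⟨a, b, hab⟩ := hlin l g M u ω c hω e
    have h1 := hint l g
    have h2 := congrArg (fun X : Matrix (Fin 2) (Fin 2) ℚ => X.map (algebraMap ℚ ℚ_[l])) hyt
    simp only [Matrix.map_mul, ← adj2_map, map_int] at h2
    have h3 : y.map (algebraMap ℚ ℚ_[l]) * (RR M u l g).map (algebraMap ℤ_[l] ℚ_[l]) =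
        adj2 ((RR M u l g).map (algebraMap ℤ_[l] ℚ_[l])) * y.map (algebraMap ℚ ℚ_[l]) := by
      rw [hab, adj2_lin, mul_add, add_mul, Matrix.mul_smul, Matrix.smul_mul, Matrix.mul_smul,
        Matrix.smul_mul, mul_one, one_mul, h2]
    rw [h1] at h3
    have h4 := congrArg (fun X => X * y'.map (algebraMap ℚ ℚ_[l])) h3
    simp only [mul_assoc, c1, mul_one] at h4
    simp only [← adj2_map]
    exact h4

end

theorem st_ISK (hADK : ST_ADK) (hORD : ST_ORD) (hDIS : ST_DIS) (hLMD : ST_LMD) (hTIS : ST_TIS) :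
    ST_ISK := by
  intro F _ _ S hS w h
  obtain ⟨κ, hκ, col, hcol⟩ := hADK F S hS w h
  have := Fintype.ofFinite κ
  have hD : ∀ k : κ, ∃ D : ℕ, ∀ M : Mot F S 2 w h, Cm M → TateHom M M → col M = k →
      ∀ ω, IsGen M ω → (dsc ω).natAbs = D := by
    intro k
    by_cases hk : ∃ M₀ : Mot F S 2 w h, Cm M₀ ∧ TateHom M₀ M₀ ∧ col M₀ = k
    · obtain ⟨M₀, h0, h1, h2⟩ := hk
      obtain ⟨ω₀, hω₀⟩ := hORD F S hS w h M₀ h0 h1
      exact ⟨(dsc ω₀).natAbs, fun M hM _ hk ω hω =>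
        hDIS F S w h M M₀ ω ω₀ hω hω₀ (hcol M M₀ hM h0 (hk.trans h2.symm))⟩
    · exact ⟨0, fun M a b c => absurd ⟨M, a, b, c⟩ hk⟩
  choose D hD using hD
  choose Tm hTm using fun k => hLMD (D k)
  set TT : Finset (Matrix (Fin 2) (Fin 2) ℤ) := Finset.univ.biUnion Tm with hTT
  refine ⟨Nat.card (κ × Option {t // t ∈ TT} × Bool), fun 𝒯 hCm hTate => ?_⟩
  have data : ∀ M : Mot F S 2 w h, M ∈ 𝒯 → ∃ (t : Matrix (Fin 2) (Fin 2) ℤ) (c : ℤ)
      (u : Matrix.GeneralLinearGroup (Fin 2) ℤ) (ω : Matrix (Fin 2) (Fin 2) ℤ), t ∈ TT ∧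
        IsGen M ω ∧ (u : Matrix (Fin 2) (Fin 2) ℤ) * ω =
          (t + c • (1 : Matrix (Fin 2) (Fin 2) ℤ)) * u := by
    intro M hM
    obtain ⟨ω, hω⟩ := hORD F S hS w h M (hCm M hM) (hTate M hM M hM)
    obtain ⟨t, ht, c, u, hu⟩ := hTm (col M) ω hω.1
      (hD (col M) M (hCm M hM) (hTate M hM M hM) rfl ω hω).le
    exact ⟨t, c, u, ω, Finset.mem_biUnion.2 ⟨_, Finset.mem_univ _, ht⟩, hω, hu⟩
  choose! t c u ω ht hω hu using data
  let lab : Mot F S 2 w h → κ × Option {t // t ∈ TT} := fun M =>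
    (col M, if hM : t M ∈ TT then some ⟨t M, hM⟩ else none)
  have hlab : ∀ M ∈ 𝒯, ∀ M' ∈ 𝒯, lab M = lab M' → col M = col M' ∧ t M = t M' := by
    intro M hM M' hM' he
    refine ⟨congrArg Prod.fst he, ?_⟩
    have h1 := congrArg Prod.snd he
    simp only [lab, dif_pos (ht M hM), dif_pos (ht M' hM')] at h1
    exact congrArg Subtype.val (Option.some.inj h1)
  have hkey : ∀ M ∈ 𝒯, ∀ M' ∈ 𝒯, lab M = lab M' →
      (∀ (l : ℕ) [Fact l.Prime] (g : Gal F), RR M (u M) l g = RR M' (u M') l g) ∨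
      ∀ (l : ℕ) [Fact l.Prime] (g : Gal F), RR M' (u M') l g = adj2 (RR M (u M) l g) := by
    intro M hM M' hM' he
    obtain ⟨h1, h2⟩ := hlab M hM M' hM' he
    refine isk_key M M' (ω M) (ω M') (t M) (c M) (c M') (u M) (u M') (hCm M hM) (hω M hM)
      (hω M' hM') (hu M hM) ?_
      (hTIS F S 2 w h M M' (hTate M hM M' hM') (hcol M M' (hCm M hM) (hCm M' hM') h1))
    rw [h2]
    exact hu M' hM'
  let P : Mot F S 2 w h → Prop := fun M => ∃ hb : (∃ M₀, M₀ ∈ 𝒯 ∧ lab M₀ = lab M),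
    ∀ (l : ℕ) [Fact l.Prime] (g : Gal F),
      RR hb.choose (u hb.choose) l g = RR M (u M) l g
  obtain ⟨T, hT1, hT2, hT3⟩ := rep_col 𝒯
    (fun M => ((lab M).1, (lab M).2, decide (P M))) (fun M M' => M.Iso M') (by
      intro M hM M' hM' he
      obtain ⟨he1, he'⟩ := Prod.mk.inj he
      obtain ⟨he2, he3⟩ := Prod.mk.inj he'
      have hl : lab M = lab M' := Prod.ext he1 he2
      have hP : P M ↔ P M' := by simpa using he3
      apply RR_iso M M' (u M) (u M')
      have hb : ∃ M₀, M₀ ∈ 𝒯 ∧ lab M₀ = lab M := ⟨M, hM, rfl⟩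
      have hb' : ∃ M₀, M₀ ∈ 𝒯 ∧ lab M₀ = lab M' := ⟨M, hM, hl⟩
      have hbb : hb.choose = hb'.choose := by
        congr 1
        funext M₀
        rw [hl]
      obtain ⟨k1, k2⟩ := hb.choose_spec
      by_cases hPM : P M
      · obtain ⟨_, q1⟩ := hPM
        obtain ⟨_, q2⟩ := hP.1 ⟨hb, q1⟩
        intro l _ g
        rw [← q1 l g, ← q2 l g, hbb]
      · have hPM' : ¬ P M' := fun h => hPM (hP.2 h)
        have r1 := (hkey _ k1 M hM k2).resolve_left (fun h => hPM ⟨hb, fun l _ g => h l g⟩)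
        have r2 := (hkey _ k1 M' hM' (k2.trans hl)).resolve_left (fun h => hPM' ⟨hb', by
          intro l _ g
          rw [← hbb]
          exact h l g⟩)
        intro l _ g
        rw [r1 l g, r2 l g])
  exact ⟨T, hT1, hT2, hT3⟩

end REC
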