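import Pool.Agent.Helper85.REC.Stmts9

/-!
# REC, PIN: different exponents give different values
-/

set_option autoImplicit false
set_option maxHeartbeats 800000

open scoped Classical
open NumberField Polynomial

namespace REC

open Pool.Agent.Helper13.ZL (Pl q)
open MU

/-- algebraic integers have norm at most one -/
theorem pin_norm {L : Type} [Field L] [NumberField L] {p : ℕ} [Fact p.Prime] (φ : L →+* ℚ_[p])
    (x : 𝓞 L) : ‖φ (x : L)‖ ≤ 1 := by
  have h1 : IsIntegral ℤ (φ (x : L)) := map_isIntegral_int φ x.2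
  have h2 : IsIntegral ℤ_[p] (φ (x : L)) := h1.tower_top
  obtain ⟨y, hy⟩ := IsIntegrallyClosed.isIntegral_iff.1 h2
  rw [← hy]
  exact y.2

/-- the ring homomorphism to the `p`-adic integers -/
noncomputable def pinHom {L : Type} [Field L] [NumberField L] {p : ℕ} [Fact p.Prime]
    (φ : L →+* ℚ_[p]) : 𝓞 L →+* ℤ_[p] where
  toFun x := ⟨φ (x : L), pin_norm φ x⟩
  map_one' := Subtype.ext (map_one φ)
  map_mul' a b := Subtype.ext (map_mul φ (a : L) (b : L))
  map_zero' := Subtype.ext (map_zero φ)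
  map_add' a b := Subtype.ext (map_add φ (a : L) (b : L))

theorem pinHom_inj {L : Type} [Field L] [NumberField L] {p : ℕ} [Fact p.Prime]
    (φ : L →+* ℚ_[p]) : Function.Injective (pinHom φ) := by
  intro a b h
  have h1 : φ (a : L) = φ (b : L) := congrArg Subtype.val h
  exact RingOfIntegers.ext (φ.injective h1)

/-- two different embeddings differ at an integral element -/
theorem pin_sep {F L : Type} [Field F] [NumberField F] [Field L] [NumberField L]
    (t t' : F →+* L) (h : t ≠ t') : ∃ θ : 𝓞 F, RingOfIntegers.mapRingHom t θ ≠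
      RingOfIntegers.mapRingHom t' θ := by
  by_contra hc
  push Not at hc
  apply h
  apply IsLocalization.ringHom_ext (nonZeroDivisors (𝓞 F))
  ext x
  exact congrArg (fun y : 𝓞 L => (y : L)) (hc x)

theorem st_PIN (hSPQ : ST_SPQ) : ST_PIN := by
  intro F L _ _ _ _ _ e e' hee m c hm
  obtain ⟨τ₀, hτ₀⟩ := Function.ne_iff.1 hee
  choose θ hθ using fun (t : {t : F →+* L // t ≠ τ₀}) => pin_sep t.1 τ₀ t.2
  set D : 𝓞 L := ∏ t : {t : F →+* L // t ≠ τ₀},
    (RingOfIntegers.mapRingHom t.1 (θ t) - RingOfIntegers.mapRingHom τ₀ (θ t)) with hD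
  have hD0 : D ≠ 0 := by
    rw [hD, Finset.prod_ne_zero_iff]
    intro t _
    exact sub_ne_zero.2 (hθ t)
  set n := Ideal.absNorm (Ideal.span {D}) with hn
  have hn0 : n ≠ 0 := by
    rw [hn, Ne, Ideal.absNorm_eq_zero_iff, Ideal.span_singleton_eq_bot]
    exact hD0
  have hDn : D ∣ (n : 𝓞 L) := by
    rw [← Ideal.mem_span_singleton]
    exact Ideal.absNorm_mem _
  obtain ⟨p, hp, hcp, ⟨φ⟩⟩ := hSPQ L (max c n)
  set ψ := pinHom φ with hψ
  let κ : (F →+* L) → (𝓞 F →+* ZMod p) := fun t =>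
    (PadicInt.toZMod (p := p)).comp (ψ.comp (RingOfIntegers.mapRingHom t))
  have hκ : ∀ t x, κ t x = PadicInt.toZMod (ψ (RingOfIntegers.mapRingHom t x)) := fun t x => rfl
  have hDu : PadicInt.toZMod (ψ D) ≠ 0 := by
    intro h0
    obtain ⟨z, hz⟩ := hDn
    have h1 : ((n : ℕ) : ZMod p) = 0 := by
      have h2 := congrArg (fun y => PadicInt.toZMod (ψ y)) hz
      simp only [map_natCast, map_mul, h0, zero_mul] at h2
      exact h2
    rw [ZMod.natCast_eq_zero_iff] at h1
    have h2 := Nat.le_of_dvd (Nat.pos_of_ne_zero hn0) h1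
    have h3 := (le_max_right c n).trans_lt hcp
    omega
  have hfac : ∀ t : {t : F →+* L // t ≠ τ₀}, κ t.1 (θ t) ≠ κ τ₀ (θ t) := by
    intro t h
    apply hDu
    rw [hD, map_prod, map_prod]
    apply Finset.prod_eq_zero (Finset.mem_univ t)
    rw [map_sub, map_sub, ← hκ, ← hκ, h, sub_self]
  have hpF : (p : 𝓞 F) ≠ 0 := by exact_mod_cast hp.out.ne_zero
  let v : Pl F := ⟨RingHom.ker (κ τ₀), RingHom.ker_isPrime _, by
    intro h
    have h1 : (p : 𝓞 F) ∈ RingHom.ker (κ τ₀) := by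
      rw [RingHom.mem_ker, map_natCast, ZMod.natCast_self]
    rw [h] at h1
    exact hpF h1⟩
  refine ⟨p, v, hp.out, (le_max_left c n).trans_lt hcp, ?_, fun x hx heq => ?_⟩
  · show (p : 𝓞 F) ∈ RingHom.ker (κ τ₀)
    rw [RingHom.mem_ker, map_natCast, ZMod.natCast_self]
  have hxv : x ∈ v.asIdeal ^ m := by
    rw [← hx]
    exact Ideal.mem_span_singleton_self x
  have hx0 : x ≠ 0 := by
    rintro rfl
    rw [Ideal.span_singleton_eq_bot.2 rfl] at hx
    exact v.ne_bot (pow_eq_zero_iff hm.ne' |>.1 hx.symm)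
  have hxτ : κ τ₀ x = 0 := by
    have h1 : x ∈ v.asIdeal := Ideal.pow_le_self hm.ne' hxv
    exact h1
  have hxt : ∀ t : F →+* L, t ≠ τ₀ → κ t x ≠ 0 := by
    intro t ht h0
    have h1 : v.asIdeal ^ m ≤ RingHom.ker (κ t) := by
      rw [← hx, Ideal.span_singleton_le_iff_mem]
      exact h0
    have h2 : v.asIdeal ≤ RingHom.ker (κ t) := (RingHom.ker_isPrime (κ t)).le_of_pow_le h1
    apply hfac ⟨t, ht⟩
    have h3 : θ ⟨t, ht⟩ - (((κ τ₀ (θ ⟨t, ht⟩)).val : ℕ) : 𝓞 F) ∈ v.asIdeal := by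
      show _ ∈ RingHom.ker (κ τ₀)
      rw [RingHom.mem_ker, map_sub, map_natCast, ZMod.natCast_zmod_val, sub_self]
    have h4 := h2 h3
    rw [RingHom.mem_ker, map_sub, map_natCast, ZMod.natCast_zmod_val, sub_eq_zero] at h4
    exact h4
  -- norms
  have hu : ∀ t : F →+* L, t ≠ τ₀ → ‖ψ (RingOfIntegers.mapRingHom t x)‖ = 1 := by
    intro t ht
    by_contra h
    have h1 : ‖ψ (RingOfIntegers.mapRingHom t x)‖ < 1 := lt_of_le_of_ne (PadicInt.norm_le_one _) h
    apply hxt t ht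
    rw [hκ]
    have h2 : ψ (RingOfIntegers.mapRingHom t x) ∈ RingHom.ker (PadicInt.toZMod (p := p)) := by
      rw [PadicInt.ker_toZMod, IsLocalRing.mem_maximalIdeal, mem_nonunits_iff,
        PadicInt.isUnit_iff]
      exact h1.ne
    exact h2
  have h0 : ‖ψ (RingOfIntegers.mapRingHom τ₀ x)‖ < 1 := by
    refine lt_of_le_of_ne (PadicInt.norm_le_one _) fun h => ?_
    have h1 : ψ (RingOfIntegers.mapRingHom τ₀ x) ∈ RingHom.ker (PadicInt.toZMod (p := p)) := hxτ
    rw [PadicInt.ker_toZMod, IsLocalRing.mem_maximalIdeal, mem_nonunits_iff,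
      PadicInt.isUnit_iff] at h1
    exact h1 h
  have h00 : 0 < ‖ψ (RingOfIntegers.mapRingHom τ₀ x)‖ := by
    rw [norm_pos_iff]
    intro h
    have h1 : RingOfIntegers.mapRingHom τ₀ x = 0 := pinHom_inj φ (h.trans (map_zero _).symm)
    have h2 : τ₀ (x : F) = 0 := congrArg (fun y : 𝓞 L => (y : L)) h1
    exact hx0 (RingOfIntegers.ext ((map_eq_zero τ₀).1 h2))
  have hprod : ∀ f : (F →+* L) → ℕ, ‖ψ (∏ τ : F →+* L, RingOfIntegers.mapRingHom τ x ^ f τ)‖ =
      ‖ψ (RingOfIntegers.mapRingHom τ₀ x)‖ ^ f τ₀ := by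
    intro f
    rw [map_prod, norm_prod, Finset.prod_eq_single τ₀]
    · rw [map_pow, norm_pow]
    · intro t _ ht
      rw [map_pow, norm_pow, hu t ht, one_pow]
    · intro h
      exact absurd (Finset.mem_univ _) h
  have h1 := congrArg (fun y => ‖ψ y‖) heq
  simp only [hprod] at h1
  exact hτ₀ ((pow_right_strictAnti₀ h00 h0).injective h1)

end REC
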