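import Pool.Agent.Helper85.REC.Stmts14b

/-!
# Row TCH: fundamental characters   [helper17]
Proof: /team-store/rec_blueprint14b.md
-/

set_option autoImplicit false

open scoped Classical
open NumberField Polynomial

namespace REC

open Pool.Agent.Helper13.ZL (Pl q)
open MU

namespace TCH

variable {F k : Type} [Field F] [NumberField F] [Field k]

/-- for large `l` no place over `l` is ramified -/
lemma unr (F : Type) [Field F] [NumberField F] (l : ℕ) [Fact l.Prime]
    (hl : (NumberField.discr F).natAbs < l) (v : Pl F) : (l : 𝓞 F) ∉ v.asIdeal ^ 2 := by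
  intro h
  have hlp : l.Prime := Fact.out
  have hmax : (Ideal.span {(l : ℤ)}).IsMaximal := by
    have : Prime (l : ℤ) := Nat.prime_iff_prime_int.1 hlp
    exact PrincipalIdealRing.isMaximal_of_irreducible this.irreducible
  have hmap : v.asIdeal ^ 2 ∣ (Ideal.span {(l : ℤ)}).map (algebraMap ℤ (𝓞 F)) := by
    rw [Ideal.map_span, Set.image_singleton, Ideal.dvd_span_singleton]
    simpa using h
  have h1 := pow_sub_one_dvd_differentIdeal (A := ℤ) (B := 𝓞 F) (p := Ideal.span {(l : ℤ)})
    v.asIdeal 2 (by simpa using hlp.ne_zero) hmap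
  have h2 : Ideal.absNorm v.asIdeal ∣ (NumberField.discr F).natAbs := by
    rw [← NumberField.absNorm_differentIdeal F (𝓞 F)]
    exact Ideal.absNorm_dvd_absNorm_of_le (Ideal.dvd_iff_le.1 (by simpa using h1))
  have hlv : (l : 𝓞 F) ∈ v.asIdeal := Ideal.pow_le_self two_ne_zero h
  have h3 : Ideal.absNorm v.asIdeal ∣ l ^ Module.finrank ℚ F := by
    have h4 := Ideal.absNorm_dvd_absNorm_of_le
      ((Ideal.span_singleton_le_iff_mem (I := v.asIdeal)).2 hlv)
    rw [Ideal.absNorm_span_singleton] at h4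
    have h5 : (Algebra.norm ℤ (l : 𝓞 F)).natAbs = l ^ Module.finrank ℚ F := by
      have : ((l : ℕ) : 𝓞 F) = algebraMap ℤ (𝓞 F) (l : ℤ) := by simp
      rw [this, Algebra.norm_algebraMap, RingOfIntegers.rank]
      simp [Int.natAbs_pow]
    rwa [h5] at h4
  obtain ⟨j, -, hj⟩ := (Nat.dvd_prime_pow hlp).1 h3
  have hj0 : j ≠ 0 := by
    rintro rfl
    rw [pow_zero, Ideal.absNorm_eq_one_iff] at hj
    exact v.isPrime.ne_top hj
  rw [hj] at h2
  have h6 : l ∣ (NumberField.discr F).natAbs := (dvd_pow_self l hj0).trans h2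
  have h7 : (NumberField.discr F).natAbs ≠ 0 := by simpa using NumberField.discr_ne_zero F
  have := Nat.le_of_dvd (Nat.pos_of_ne_zero h7) h6
  omega

omit [NumberField F] in
/-- the element of `Zb F` given by an integral element -/
lemma exZb {x : AlgebraicClosure F} (h : IsIntegral ℤ x) : ∃ y : Zb F, (y : AlgebraicClosure F) = x :=
  ⟨⟨x, h⟩, rfl⟩

omit [NumberField F] in
/-- conjugates -/
lemma exσ (σ : Gal F) (x : Zb F) : ∃ y : Zb F, (y : AlgebraicClosure F) = σ (x : AlgebraicClosure F) :=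
  exZb (map_isIntegral_int (σ : AlgebraicClosure F →+* AlgebraicClosure F) x.2)

omit [NumberField F] in
/-- the inertia group acts trivially modulo the kernel -/
lemma inr {θ : Zb F →+* k} {σ : Gal F} (h : CongPow (RingHom.ker θ) 1 σ) (x y : Zb F)
    (hy : (y : AlgebraicClosure F) = σ (x : AlgebraicClosure F)) : θ y = θ x := by
  have h1 : θ (y - x ^ 1) = 0 := h x y hy
  rw [pow_one, map_sub, sub_eq_zero] at h1
  exact h1

omit [NumberField F] in
lemma rtne {n : ℕ} {y a : Zb F} (hn : n ≠ 0) (h : y ^ n = a) (ha : a ≠ 0) :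
    (y : AlgebraicClosure F) ≠ 0 := by
  intro h0
  have : y = 0 := Subtype.ext h0
  rw [this, zero_pow hn] at h
  exact ha h.symm

omit [NumberField F] in
/-- existence of roots -/
lemma exrt {n : ℕ} (hn : n ≠ 0) (a : Zb F) : ∃ y : Zb F, y ^ n = a := by
  obtain ⟨y, hy⟩ := IsAlgClosed.exists_pow_nat_eq (a : AlgebraicClosure F) (Nat.pos_of_ne_zero hn)
  have : IsIntegral ℤ y := IsIntegral.of_pow (Nat.pos_of_ne_zero hn) (by rw [hy]; exact a.2)
  exact ⟨⟨y, this⟩, Subtype.ext (by simpa using hy)⟩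

omit [NumberField F] in
/-- quotients of roots -/
lemma exquo {n : ℕ} (hn : n ≠ 0) {y y' a : Zb F} (ha : a ≠ 0) (h : y ^ n = a) (h' : y' ^ n = a) :
    ∃ η : Zb F, η ^ n = 1 ∧ y' = η * y := by
  have hy := rtne hn h ha
  have he : ((y' : AlgebraicClosure F) / y) ^ n = 1 := by
    have h1 : (y : AlgebraicClosure F) ^ n = a := by simpa using congrArg Subtype.val h
    have h2 : (y' : AlgebraicClosure F) ^ n = a := by simpa using congrArg Subtype.val h'
    rw [div_pow, h1, h2, div_self]
    intro h0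
    exact ha (Subtype.ext h0)
  have hi : IsIntegral ℤ ((y' : AlgebraicClosure F) / y) :=
    IsIntegral.of_pow (Nat.pos_of_ne_zero hn) (by rw [he]; exact isIntegral_one)
  refine ⟨⟨_, hi⟩, Subtype.ext (by simpa using he), Subtype.ext ?_⟩
  show (y' : AlgebraicClosure F) = (y' : AlgebraicClosure F) / y * y
  rw [div_mul_cancel₀ _ hy]

omit [NumberField F] in
/-- existence of the value -/
lemma exz {n : ℕ} (hn : n ≠ 0) {y a : Zb F} (ha : a ≠ 0) (h : y ^ n = a) (σ : Gal F)
    (hσ : σ (a : AlgebraicClosure F) = a) :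
    ∃ z : Zb F, z ^ n = 1 ∧
      (z : AlgebraicClosure F) * (y : AlgebraicClosure F) = σ (y : AlgebraicClosure F) := by
  obtain ⟨y', hy'⟩ := exσ σ y
  have h' : y' ^ n = a := by
    apply Subtype.ext
    have h1 : (y : AlgebraicClosure F) ^ n = a := by simpa using congrArg Subtype.val h
    show (y' : AlgebraicClosure F) ^ n = a
    rw [hy', ← map_pow, h1, hσ]
  obtain ⟨z, hz, hzy⟩ := exquo hn ha h h'
  refine ⟨z, hz, ?_⟩
  rw [← hy', hzy]
  rfl

omit [NumberField F] in
/-- independence of the root -/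
lemma uniq {n : ℕ} (hn : n ≠ 0) {θ : Zb F →+* k} {σ : Gal F} (hσ : CongPow (RingHom.ker θ) 1 σ)
    {y y' z z' a : Zb F} (ha : a ≠ 0) (h : y ^ n = a) (h' : y' ^ n = a)
    (hz : (z : AlgebraicClosure F) * (y : AlgebraicClosure F) = σ (y : AlgebraicClosure F))
    (hz' : (z' : AlgebraicClosure F) * (y' : AlgebraicClosure F) = σ (y' : AlgebraicClosure F)) :
    θ z = θ z' := by
  obtain ⟨η, hη, rfl⟩ := exquo hn ha h h'
  obtain ⟨η', hη'⟩ := exσ σ η
  have hy := rtne hn h ha
  have h1 : z' * η = η' * z := by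
    apply Subtype.ext
    show (z' : AlgebraicClosure F) * η = η' * z
    apply mul_right_cancel₀ hy
    have h2 : ((η * y : Zb F) : AlgebraicClosure F) = (η : AlgebraicClosure F) * y := rfl
    rw [h2, map_mul, ← hη', ← hz] at hz'
    rw [mul_assoc, hz', mul_assoc]
  have h3 := congrArg θ h1
  rw [map_mul, map_mul, inr hσ η η' hη'] at h3
  have h4 : θ η ≠ 0 := by
    intro h0
    have := congrArg θ hη
    rw [map_pow, h0, zero_pow hn, map_one] at this
    exact zero_ne_one this
  rw [mul_comm (θ z')] at h3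
  exact (mul_left_cancel₀ h4 h3).symm

omit [NumberField F] in
lemma natσ (σ : Gal F) (l : ℕ) : σ ((l : Zb F) : AlgebraicClosure F) = ((l : Zb F) : AlgebraicClosure F) := by
  simp

end TCH

open TCH

theorem st_TCH : ST_TCH := by
  intro F _ _
  refine ⟨(NumberField.discr F).natAbs, fun l _ hl k _ θ hθl => ?_⟩
  have hlp : l.Prime := Fact.out
  have hN : ∀ r, 0 < r → l ^ r - 1 ≠ 0 := by
    intro r hr
    have : 1 < l ^ r := Nat.one_lt_pow hr.ne' hlp.one_lt
    omega
  have hl0 : (l : Zb F) ≠ 0 := by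
    intro h0
    have := congrArg Subtype.val h0
    have h1 : ((l : ℕ) : AlgebraicClosure F) = 0 := by simpa using this
    exact hlp.ne_zero (by exact_mod_cast h1)
  have H2 : ∀ (r : ℕ) (σ : Gal F) (a b : k), 0 < r → CongPow (RingHom.ker θ) 1 σ → FCh l θ r σ a →
      FCh l θ r σ b → a = b := by
    rintro r σ a b hr hσ ⟨y, z, hy, hz, rfl⟩ ⟨y', z', hy', hz', rfl⟩
    exact uniq (hN r hr) hσ hl0 hy hy' hz hz'
  refine ⟨?_, H2, ?_, ?_, ?_⟩
  · intro r σ hr hσ
    obtain ⟨y, hy⟩ := exrt (hN r hr) (l : Zb F)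
    obtain ⟨z, hz, hzy⟩ := exz (hN r hr) hl0 hy σ (natσ σ l)
    exact ⟨θ z, ⟨y, z, hy, hzy, rfl⟩, by rw [← map_pow, hz, map_one]⟩
  · rintro r σ τ a b hr hσ hτ ⟨y, z, hy, hz, rfl⟩ hb
    obtain ⟨z', hz', hzy'⟩ := exz (hN r hr) hl0 hy τ (natσ τ l)
    have hb' := H2 r τ b (θ z') hr hτ hb ⟨y, z', hy, hzy', rfl⟩
    obtain ⟨z'', hz''⟩ := exσ σ z'
    refine ⟨y, z'' * z, hy, ?_, ?_⟩
    · show ((z'' : AlgebraicClosure F) * z) * y = σ (τ (y : AlgebraicClosure F))
      rw [mul_assoc, hz, ← hzy', map_mul, ← hz'']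
    · rw [map_mul, inr hσ z' z'' hz'', hb', mul_comm]
  · rintro r s σ a hr hs hσ ⟨y, z, hy, hz, rfl⟩
    set m := (l ^ (r * s) - 1) / (l ^ r - 1) with hm
    have hd : l ^ r - 1 ∣ l ^ (r * s) - 1 := by
      rw [pow_mul]
      exact Nat.sub_one_dvd_pow_sub_one _ _
    have hmm : m * (l ^ r - 1) = l ^ (r * s) - 1 := Nat.div_mul_cancel hd
    refine ⟨y ^ m, z ^ m, ?_, ?_, by rw [map_pow]⟩
    · rw [← pow_mul, hmm, hy]
    · show (z : AlgebraicClosure F) ^ m * (y : AlgebraicClosure F) ^ m = σ ((y : AlgebraicClosure F) ^ m)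
      rw [map_pow, ← hz, mul_pow]
  · intro v f hv hq
    have hf : 0 < f := by
      rcases Nat.eq_zero_or_pos f with rfl | h
      · exfalso
        rw [pow_zero] at hq
        exact v.isPrime.ne_top (Ideal.absNorm_eq_one_iff.1 hq)
      · exact h
    refine ⟨?_, ?_⟩
    · rintro r φ σ a hr hφ hσ ha
      obtain ⟨y, hy⟩ := exrt (hN r hr) (l : Zb F)
      obtain ⟨y', hy'⟩ := exσ φ⁻¹ y
      have hy1 : (y' : AlgebraicClosure F) ^ (l ^ r - 1) = ((l : Zb F) : AlgebraicClosure F) := by
        have h1 : (y : AlgebraicClosure F) ^ (l ^ r - 1) = ((l : Zb F) : AlgebraicClosure F) := by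
          simpa using congrArg Subtype.val hy
        rw [hy', ← map_pow, h1, natσ]
      have hy2 : y' ^ (l ^ r - 1) = (l : Zb F) := Subtype.ext (by simpa using hy1)
      obtain ⟨z, hz, hzy⟩ := exz (hN r hr) hl0 hy2 σ (natσ σ l)
      have hθ := H2 r σ a (θ z) hr hσ ha ⟨y', z, hy2, hzy, rfl⟩
      obtain ⟨z', hz'⟩ := exσ φ z
      refine ⟨y, z', hy, ?_, ?_⟩
      · have h3 : φ (y' : AlgebraicClosure F) = y := by
          rw [hy']
          show (φ * φ⁻¹) (y : AlgebraicClosure F) = y
          simp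
        have h4 : (φ * σ * φ⁻¹) (y : AlgebraicClosure F) = φ (σ (y' : AlgebraicClosure F)) := by
          rw [hy']
          rfl
        rw [h4, ← hzy, map_mul, h3, ← hz']
      · have h5 : θ (z' - z ^ q v) = 0 := hφ z z' hz'
        rw [map_sub, map_pow, sub_eq_zero] at h5
        rw [h5, hθ]
    · intro π hπ hπ2 σ u ub hσ hu hT hub
      have hlv : (l : 𝓞 F) ∈ v.asIdeal := (hv.2 (l : 𝓞 F) (l : Zb F) (by simp)).1 hθl
      have hl2 : (l : 𝓞 F) ∉ v.asIdeal ^ 2 := unr F l hl v
      have hπ0 : π ≠ 0 := by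
        rintro rfl
        exact hπ2 (Ideal.zero_mem _)
      -- `β l = α π`
      obtain ⟨J, hJ⟩ : v.asIdeal ∣ Ideal.span {π} := Ideal.dvd_span_singleton.2 hπ
      have hJv : ¬ J ≤ v.asIdeal := by
        intro h
        apply hπ2
        have h1 : π ∈ Ideal.span {π} := Ideal.mem_span_singleton_self π
        rw [hJ] at h1
        rw [pow_two]
        exact Ideal.mul_mono_right h h1
      obtain ⟨β, hβJ, hβ⟩ := Set.not_subset.1 hJv
      have hβl : β * l ∈ Ideal.span {π} := by
        rw [hJ, mul_comm β]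
        exact Ideal.mul_mem_mul hlv hβJ
      obtain ⟨α, hα⟩ := Ideal.mem_span_singleton'.1 hβl
      have hαv : α ∉ v.asIdeal := by
        intro h
        have h1 : β * l ∈ v.asIdeal ^ 2 := by
          rw [← hα, pow_two]
          exact Ideal.mul_mem_mul h hπ
        have := v.isPrime
        rcases Ideal.IsPrime.mul_mem_pow v.asIdeal h1 with h2 | h2
        · exact hβ h2
        · exact hl2 h2
      -- roots
      have hint : ∀ x : 𝓞 F, ∃ X : Zb F, (X : AlgebraicClosure F) =
          algebraMap F (AlgebraicClosure F) (x : F) := fun x =>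
        exZb (map_isIntegral_int (algebraMap F (AlgebraicClosure F)) x.isIntegral_coe)
      obtain ⟨A, hA⟩ := hint α
      obtain ⟨B, hB⟩ := hint β
      obtain ⟨P, hP⟩ := hint π
      have hN' := hN f hf
      have hqf : q v - 1 = l ^ f - 1 := by rw [hq]
      obtain ⟨a0, ha0⟩ := exrt hN' A
      obtain ⟨b0, hb0⟩ := exrt hN' B
      obtain ⟨y, hy⟩ := exrt hN' (l : Zb F)
      obtain ⟨y1, hy1⟩ := exrt hN' P
      have hθA : θ A ≠ 0 := by
        intro h0
        exact hαv ((hv.2 α A hA).1 (RingHom.mem_ker.2 h0))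
      have hθB : θ B ≠ 0 := by
        intro h0
        exact hβ ((hv.2 β B hB).1 (RingHom.mem_ker.2 h0))
      have hP0 : P ≠ 0 := by
        rintro rfl
        apply hπ0
        have h1 : algebraMap F (AlgebraicClosure F) (π : F) = 0 := by rw [← hP]; rfl
        have h2 : (π : F) = 0 := by simpa using h1
        exact_mod_cast h2
      have hA0 : A ≠ 0 := by
        rintro rfl
        exact hθA (map_zero θ)
      have hAP : A * P = B * (l : Zb F) := by
        apply Subtype.ext
        show (A : AlgebraicClosure F) * (P : AlgebraicClosure F) =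
          (B : AlgebraicClosure F) * ((l : Zb F) : AlgebraicClosure F)
        rw [hA, hB, hP]
        have h1 : ((l : Zb F) : AlgebraicClosure F) = algebraMap F (AlgebraicClosure F) (((l : 𝓞 F)) : F) := by
          simp
        rw [h1, ← map_mul, ← map_mul]
        exact_mod_cast congrArg (fun x : 𝓞 F => algebraMap F (AlgebraicClosure F) (x : F)) hα
      have hbase : ∀ X : Zb F, (∃ x : 𝓞 F, (X : AlgebraicClosure F) =
          algebraMap F (AlgebraicClosure F) (x : F)) →
          σ (X : AlgebraicClosure F) = (X : AlgebraicClosure F) := by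
        rintro X ⟨x, hx⟩
        rw [hx]
        exact σ.commutes _
      have hr1 : (a0 * y1) ^ (l ^ f - 1) = A * P := by rw [mul_pow, ha0, hy1]
      have hr2 : (b0 * y) ^ (l ^ f - 1) = A * P := by rw [mul_pow, hb0, hy, hAP]
      have hAP0 : A * P ≠ 0 := mul_ne_zero hA0 hP0
      obtain ⟨η, hη, hηe⟩ := exquo hN' hAP0 hr1 hr2
      obtain ⟨z, hz, hzy⟩ := exz hN' hl0 hy σ (natσ σ l)
      obtain ⟨z1, hz1, hzy1⟩ := exz hN' hP0 hy1 σ (hbase P ⟨π, hP⟩)
      obtain ⟨a0', ha0'⟩ := exσ σ a0
      obtain ⟨b0', hb0'⟩ := exσ σ b0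
      obtain ⟨η', hη'⟩ := exσ σ η
      have hy1n := rtne hN' hy1 hP0
      have key : b0' * z * (η * a0) = η' * a0' * z1 * b0 := by
        apply Subtype.ext
        show (b0' : AlgebraicClosure F) * z * (η * a0) = η' * a0' * z1 * b0
        have e1 : (b0 : AlgebraicClosure F) * y = η * (a0 * y1) := by
          simpa using congrArg Subtype.val hηe
        have e2 := congrArg σ e1
        rw [map_mul, map_mul, map_mul, ← ha0', ← hb0', ← hη', ← hzy, ← hzy1] at e2
        apply mul_right_cancel₀ hy1n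
        calc (b0' : AlgebraicClosure F) * z * (η * a0) * y1
            = b0' * z * (η * (a0 * y1)) := by ring
          _ = b0' * z * (b0 * y) := by rw [e1]
          _ = (b0' * (z * y)) * b0 := by ring
          _ = (η' * (a0' * (z1 * y1))) * b0 := by rw [e2]
          _ = η' * a0' * z1 * b0 * y1 := by ring
      have k1 := congrArg θ key
      rw [map_mul, map_mul, map_mul, map_mul, map_mul, map_mul, inr hσ b0 b0' hb0',
        inr hσ η η' hη', inr hσ a0 a0' ha0'] at k1
      have n1 : θ b0 ≠ 0 := by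
        intro h0
        apply hθB
        rw [← hb0, map_pow, h0, zero_pow hN']
      have n2 : θ a0 ≠ 0 := by
        intro h0
        apply hθA
        rw [← ha0, map_pow, h0, zero_pow hN']
      have n3 : θ η ≠ 0 := by
        intro h0
        have := congrArg θ hη
        rw [map_pow, h0, zero_pow hN', map_one] at this
        exact zero_ne_one this
      have k2 : θ z = θ z1 := by
        have : (θ b0 * θ η * θ a0) * θ z = (θ b0 * θ η * θ a0) * θ z1 := by
          linear_combination k1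
        exact mul_left_cancel₀ (mul_ne_zero (mul_ne_zero n1 n3) n2) this
      have k3 : θ z1 = θ ub := by
        have hy1' : (y1 : AlgebraicClosure F) ^ (q v - 1) =
            algebraMap F (AlgebraicClosure F) (π : F) := by
          rw [hqf, ← hP]
          simpa using congrArg Subtype.val hy1
        have h1 : θ (z1 - ub) = 0 := hT y1 z1 ub hy1' hzy1 hub
        rw [map_sub, sub_eq_zero] at h1
        exact h1
      exact ⟨y, z, hy, hzy, k2.trans k3⟩

end REC
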